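import Pool.Agent.W401.Cheb.Main
import Pool.Agent.V5helper35.CA.Stm1

/-!
# Project CA, job KUM1
-/

set_option autoImplicit false

namespace Pool.Agent.V5helper81.CA

open NumberField Polynomial Pool.Agent.W401.Cheb

theorem t_KUM1 : Pool.Agent.V5helper35.CA.S_KUM1 := by
  intro K M _ _ _ _ _ _ q hq y z ζ hy hζ hz hP σ hσK hσζ
  have hnz : NeZero q := ⟨hq.ne'⟩
  obtain ⟨p, ⟨hp, hxp⟩, hpq⟩ := (infinite_frob M σ).exists_gt q
  have hpf : Fact p.Prime := ⟨hp⟩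
  have hφ : ∃ φ : 𝓞 M →+* AlgebraicClosure (ZMod p), HasFrob p φ σ := by
    by_contra hno
    apply hxp
    unfold xp
    rw [dif_pos hp]
    have : IsEmpty {φ : 𝓞 M →+* AlgebraicClosure (ZMod p) // HasFrob p φ σ} :=
      ⟨fun φ => hno ⟨φ.1, φ.2⟩⟩
    exact Nat.card_of_isEmpty
  obtain ⟨φ, hφ⟩ := hφ
  have hcp : CharP (AlgebraicClosure (ZMod p)) p := charP_of_injective_algebraMap
    (algebraMap (ZMod p) (AlgebraicClosure (ZMod p))).injective p
  -- integrality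
  have hzint : IsIntegral ℤ z := by
    refine IsIntegral.of_pow hq ?_
    rw [hz]
    exact (RingOfIntegers.isIntegral_coe y).map ((algebraMap K M).toIntAlgHom)
  obtain ⟨Z, hZ⟩ : ∃ Z : 𝓞 M, (Z : M) = z := ⟨⟨z, hzint⟩, rfl⟩
  have hζi : IsPrimitiveRoot hζ.toInteger q := hζ.toInteger_isPrimitiveRoot
  have hζc : ((hζ.toInteger : 𝓞 M) : M) = ζ := rfl
  generalize hζ.toInteger = ξ at hζi hζc
  -- the maximal ideal
  let ι : 𝓞 K →+* 𝓞 M := algebraMap (𝓞 K) (𝓞 M)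
  have hι : ∀ x : 𝓞 K, ((ι x : 𝓞 M) : M) = algebraMap K M (x : K) := fun x => rfl
  let ψ : 𝓞 K →+* AlgebraicClosure (ZMod p) := φ.comp ι
  have hψ : ∀ x : 𝓞 K, ψ x = φ (ι x) := fun x => rfl
  have hprime : (RingHom.ker ψ).IsPrime := RingHom.ker_isPrime ψ
  have hmem : (p : 𝓞 K) ∈ RingHom.ker ψ := by
    rw [RingHom.mem_ker, map_natCast]
    exact CharP.cast_eq_zero _ p
  have hne : RingHom.ker ψ ≠ ⊥ := by
    intro h
    rw [h, Ideal.mem_bot] at hmem
    exact hp.ne_zero (by exact_mod_cast hmem)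
  obtain ⟨x, hx⟩ := hP _ (hprime.isMaximal hne)
  rw [RingHom.mem_ker, map_sub, map_pow, sub_eq_zero] at hx
  -- the action of `σ`
  have hsm : ∀ a : 𝓞 M, ((σ • a : 𝓞 M) : M) = σ (a : M) := fun a => rfl
  have hσξ : σ • ξ = ξ := by
    apply RingOfIntegers.ext
    rw [hsm, hζc, hσζ]
  have hσι : ∀ a : 𝓞 K, σ • (ι a) = ι a := by
    intro a
    apply RingOfIntegers.ext
    rw [hsm, hι, hσK]
  have hZq : Z ^ q = ι y := by
    apply RingOfIntegers.ext
    rw [hι, ← hz, ← hZ]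
    rfl
  have hφξ : IsPrimitiveRoot (φ ξ) q := by
    have hnz' : NeZero (q : AlgebraicClosure (ZMod p)) := by
      refine ⟨fun h => ?_⟩
      rw [CharP.cast_eq_zero_iff _ p] at h
      exact absurd (Nat.le_of_dvd hq h) (not_le.2 hpq)
    rw [← isRoot_cyclotomic_iff, ← map_cyclotomic q φ]
    exact (hζi.isRoot_cyclotomic hq).map
  -- the Frobenius fixes `φ Z`
  have h1 : φ (σ • Z) = φ Z := by
    have h2 : (0 : AlgebraicClosure (ZMod p)) = ∏ η ∈ nthRootsFinset q (1 : 𝓞 M), (φ Z - φ η * φ (ι x)) := by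
      have h3 := congrArg φ (hζi.pow_sub_pow_eq_prod_sub_mul Z (ι x) hq)
      rw [map_prod, map_sub, map_pow, map_pow, ← map_pow, hZq] at h3
      rw [← hψ, ← hψ, ← hx, sub_self] at h3
      rw [h3]
      refine Finset.prod_congr rfl fun η _ => ?_
      rw [map_sub, map_mul]
    obtain ⟨η, hη, h4⟩ := Finset.prod_eq_zero_iff.1 h2.symm
    rw [mem_nthRootsFinset hq] at hη
    obtain ⟨j, -, rfl⟩ := hζi.eq_pow_of_pow_eq_one hη
    have h5 : φ Z = φ (ξ ^ j * ι x) := by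
      rw [map_mul]
      exact sub_eq_zero.1 h4
    rw [hφ Z, h5, ← hφ, smul_mul', smul_pow', hσξ, hσι]
  have h2 : z ≠ 0 := by
    rintro rfl
    rw [zero_pow hq.ne'] at hz
    have h3 : ((y : K)) = 0 := by
      have := (map_eq_zero (algebraMap K M)).1 hz.symm
      exact this
    exact hy.ne_zero (by exact_mod_cast h3)
  have h3 : (σ z / z) ^ q = 1 := by
    rw [div_pow, ← map_pow, hz, hσK, ← hz, div_self (pow_ne_zero q h2)]
  obtain ⟨i, -, hi⟩ := hζ.eq_pow_of_pow_eq_one h3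
  have h4 : σ z = ζ ^ i * z := by
    rw [hi, div_mul_cancel₀ _ h2]
  have h5 : σ • Z = ξ ^ i * Z := by
    apply RingOfIntegers.ext
    rw [hsm, hZ, h4, ← hZ, ← hζc]
    rfl
  have h6 : φ Z ≠ 0 := by
    intro h
    have h7 : φ (ι y) = 0 := by rw [← hZq, map_pow, h, zero_pow hq.ne']
    rw [← hψ] at h7
    exact (hy.map ψ).ne_zero h7
  have h7 : φ ξ ^ i = 1 := by
    rw [h5, map_mul, map_pow] at h1
    exact mul_right_cancel₀ h6 (by rw [h1, one_mul])
  have h8 : q ∣ i := (hφξ.pow_eq_one_iff_dvd i).1 h7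
  rw [h4, (hζ.pow_eq_one_iff_dvd i).2 h8, one_mul]

end Pool.Agent.V5helper81.CA
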